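import Pool.Agent.Lib.MP_6a3dac_ag.Blow.Open
import Pool.Agent.Lib.MP_6a3dac_ag.Mg.G018
import Pool.Agent.Lib.MP_6a3dac_ag.Mg.G014
import Pool.Agent.Lib.MP_6a3dac_ag.Mg.G002

/-!
# Regularity of the blow-up at the points of the model
-/

set_option autoImplicit false

namespace Pool.Agent.Lib.MP_6a3dac_ag.Blow

open MvPolynomial NumberField IsDedekindDomain IsLocalRing
open Pool.Agent.Lib.MP_6a3dac_ag.DNF Pool.Agent.Lib.MP_6a3dac_ag.Bert
open Pool.Agent.Lib.MP_6a3dac_ag.Fam

section Clear

variable {R σ τ : Type} [CommRing R]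

/-- Modulo the equations of the chart, a power of `f k` clears the new variables. -/
theorem blow_clear (f : τ → MvPolynomial σ R) (k : τ)
    (p : MvPolynomial (σ ⊕ τ) R) : ∃ (n : ℕ) (q : MvPolynomial σ R),
      rename Sum.inl (f k) ^ n * p - rename Sum.inl q ∈
        Ideal.span (Set.range fun l =>
          (rename Sum.inl (f k) * X (Sum.inr l) - rename Sum.inl (f l) :
            MvPolynomial (σ ⊕ τ) R)) := by
  set K := Ideal.span (Set.range fun l =>
    (rename Sum.inl (f k) * X (Sum.inr l) - rename Sum.inl (f l) : MvPolynomial (σ ⊕ τ) R)) with hK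
  induction p using MvPolynomial.induction_on with
  | C a =>
    refine ⟨0, C a, ?_⟩
    rw [rename_C, pow_zero, one_mul, sub_self]
    exact K.zero_mem
  | add p q hp hq =>
    obtain ⟨n, p', h1⟩ := hp
    obtain ⟨n', q', h2⟩ := hq
    refine ⟨n + n', f k ^ n' * p' + f k ^ n * q', ?_⟩
    have h3 : rename Sum.inl (f k) ^ (n + n') * (p + q) -
        rename Sum.inl (f k ^ n' * p' + f k ^ n * q') =
        rename Sum.inl (f k) ^ n' * (rename Sum.inl (f k) ^ n * p - rename Sum.inl p') +
        rename Sum.inl (f k) ^ n * (rename Sum.inl (f k) ^ n' * q - rename Sum.inl q') := by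
      simp only [map_add, map_mul, map_pow]
      ring
    rw [h3]
    exact K.add_mem (K.mul_mem_left _ h1) (K.mul_mem_left _ h2)
  | mul_X p j hp =>
    obtain ⟨n, p', h1⟩ := hp
    rcases j with l | l
    · refine ⟨n, p' * X l, ?_⟩
      have h3 : rename Sum.inl (f k) ^ n * (p * X (Sum.inl l)) - rename Sum.inl (p' * X l) =
          X (Sum.inl l) * (rename Sum.inl (f k) ^ n * p - rename Sum.inl p') := by
        rw [map_mul, rename_X]
        ring
      rw [h3]
      exact K.mul_mem_left _ h1
    · refine ⟨n + 1, p' * f l, ?_⟩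
      have h3 : rename Sum.inl (f k) ^ (n + 1) * (p * X (Sum.inr l)) - rename Sum.inl (p' * f l) =
          rename Sum.inl (f k) * X (Sum.inr l) *
            (rename Sum.inl (f k) ^ n * p - rename Sum.inl p') +
          rename Sum.inl p' * (rename Sum.inl (f k) * X (Sum.inr l) - rename Sum.inl (f l)) := by
        rw [map_mul]
        ring
      rw [h3]
      exact K.add_mem (K.mul_mem_left _ h1) (K.mul_mem_left _ (Ideal.subset_span ⟨l, rfl⟩))

end Clear

variable {E : Type} [Field E] [NumberField E] {m c : ℕ} {J : HomIdeal (𝓞 E) (m + c + 1)}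

section Point

variable {p : HomIdeal E (m + c + 1)} (hgen : GenFibreSmooth J)
  (hLD : ∀ i, LocDom (dId (bc (algebraMap (𝓞 E) E) J) i))
  (hp : p.ideal ∈ (bc (algebraMap (𝓞 E) E) J).ideal.minimalPrimes)
  (P : HeightOneSpectrum (𝓞 E)) {i : Fin (m + c + 1)} (hi : X i ∉ p.ideal) {D : Type} [CommRing D]
  [IsDomain D] [IsLocalRing D]
  (φ : MvPolynomial {l : Fin (m + c + 1) // l ≠ i} (locRing E P) →+* D)
  (hφ : ∀ q, φ q = 0 ↔ MvPolynomial.map (algebraMap (locRing E P) E) q ∈ dId p i)
include hgen hLD hp hi hφ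

/-- TASK BLOW-A -/
theorem regular_of_blowOver {r : ℕ} {Θ : 𝓞 E}
    {G : Fin r → MvPolynomial (Fin (m + c + 1)) (𝓞 E)} (hB : BlowOver P J Θ G) (hΘ0 : Θ ≠ 0)
    (b : D) (hb0 : b ≠ 0) (hb1 : b ∣ φ (C (algebraMap (𝓞 E) (locRing E P) Θ)))
    (hb2 : ∀ j, b ∣ φ (MvPolynomial.map (algebraMap (𝓞 E) (locRing E P)) (dehom i (G j))))
    (hb3 : b ∈ Submodule.span (locIn φ) (insert (φ (C (algebraMap (𝓞 E) (locRing E P) Θ)))
        (Set.range fun j => φ (MvPolynomial.map (algebraMap (𝓞 E) (locRing E P))
          (dehom i (G j))))))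
    (hmin : ∀ R' : Subring D, Dom R' → locIn φ ≤ R' →
      (∀ w, (b * w = φ (C (algebraMap (𝓞 E) (locRing E P) Θ)) ∨ ∃ j,
        b * w = φ (MvPolynomial.map (algebraMap (𝓞 E) (locRing E P)) (dehom i (G j)))) →
          w ∈ R') → R' = ⊤) :
    IsRegularLocalRing D := by
  classical
  obtain ⟨θ, hθ⟩ : ∃ θ, θ = algebraMap (𝓞 E) (locRing E P) := ⟨_, rfl⟩
  obtain ⟨φ₀, hφ₀⟩ : ∃ φ₀ : MvPolynomial {l : Fin (m + c + 1) // l ≠ i} (𝓞 E) →+* D,
    φ₀ = φ.comp (MvPolynomial.map (algebraMap (𝓞 E) (locRing E P))) := ⟨_, rfl⟩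
  have hφ₀a : ∀ f, φ (MvPolynomial.map θ f) = φ₀ f := fun f => by rw [hφ₀, hθ]; rfl
  have hdp : (dId p i).IsPrime := isPrime_dId p hp.1.1 hi
  have hθinj : ∀ z : 𝓞 E, θ z = 0 → z = 0 := by
    intro z hz
    have h1 : algebraMap (𝓞 E) E z = 0 := by
      rw [IsScalarTower.algebraMap_apply (𝓞 E) (locRing E P) E z, ← hθ, hz, map_zero]
    rwa [FaithfulSMul.algebraMap_eq_zero_iff] at h1
  -- the constants
  have hC0 : ∀ x : locRing E P, x ≠ 0 → φ (C x) ≠ 0 := by
    intro x hx h
    rw [hφ, MvPolynomial.map_C] at h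
    have h1 : algebraMap (locRing E P) E x ≠ 0 := by
      rw [Ne, FaithfulSMul.algebraMap_eq_zero_iff]
      exact hx
    exact hdp.ne_top (Ideal.eq_top_of_isUnit_mem _ h (h1.isUnit.map C))
  have hC0' : ∀ z : 𝓞 E, z ≠ 0 → φ₀ (C z) ≠ 0 := by
    intro z hz
    rw [← hφ₀a, MvPolynomial.map_C]
    exact hC0 _ fun h => hz (hθinj z h)
  -- the kernel
  have hker0 : ∀ f ∈ dId J i, φ₀ f = 0 := by
    intro f hf
    rw [hφ₀]
    exact fc3_eq_zero hp P φ hφ hf
  rw [← hθ] at hb1 hb2 hb3 hmin
  -- the generators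
  obtain ⟨f, hf⟩ : ∃ f, f = blowGens Θ G i := ⟨_, rfl⟩
  have hfn : f none = C Θ := by rw [hf]; rfl
  have hfs : ∀ j, f (some j) = dehom i (G j) := fun j => by rw [hf]; rfl
  have hφn : φ₀ (f none) = φ (C (θ Θ)) := by rw [hfn, ← hφ₀a, MvPolynomial.map_C]
  have hφs : ∀ j, φ₀ (f (some j)) = φ (MvPolynomial.map θ (dehom i (G j))) := fun j => by
    rw [hfs, hφ₀a]
  by_cases hcase : P.asIdeal.map C ≤ Ideal.comap φ₀ (maximalIdeal D)
  · -- a point over `P`
    have hdvd : ∀ o, b ∣ φ₀ (f o) := by
      rintro (_ | j)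
      · rw [hφn]; exact hb1
      · rw [hφs]; exact hb2 j
    choose w hw using hdvd
    have hspan : b ∈ Submodule.span (locIn φ) (Set.range fun o => φ₀ (f o)) := by
      refine Submodule.span_mono ?_ hb3
      rintro x (rfl | ⟨j, rfl⟩)
      · exact ⟨none, hφn⟩
      · exact ⟨some j, hφs j⟩
    obtain ⟨a, ha⟩ := (Submodule.mem_span_range_iff_exists_fun (locIn φ)).1 hspan
    have hsum : ∑ o, (a o : D) * w o = 1 := by
      apply mul_left_cancel₀ hb0
      rw [Finset.mul_sum, mul_one]
      refine Eq.trans (Finset.sum_congr rfl fun o _ => ?_) ha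
      rw [Subring.smul_def, smul_eq_mul, hw]
      ring
    obtain ⟨k, hk⟩ : ∃ k, IsUnit (w k) := by
      by_contra hcon
      push Not at hcon
      have h1 : (1 : D) ∈ maximalIdeal D := by
        rw [← hsum]
        refine Ideal.sum_mem _ fun o _ => Ideal.mul_mem_left _ _ ?_
        rw [IsLocalRing.mem_maximalIdeal]
        exact hcon o
      exact (Ideal.ne_top_iff_one _).1 (maximalIdeal.isMaximal D).ne_top h1
    obtain ⟨wi, hwi⟩ := hk.exists_right_inv
    obtain ⟨β, hβ⟩ : ∃ β : Option (Fin r) → D, ∀ l, β l = w l * wi := ⟨_, fun _ => rfl⟩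
    obtain ⟨δ, hδ⟩ : ∃ δ : MvPolynomial ({l : Fin (m + c + 1) // l ≠ i} ⊕ Option (Fin r)) (𝓞 E) →+* D,
      δ = eval₂Hom (φ₀.comp C) (Sum.elim (fun l => φ₀ (X l)) β) := ⟨_, rfl⟩
    have hδC : ∀ z, δ (C z) = φ₀ (C z) := fun z => by
      rw [hδ]
      simp
    have hδz : ∀ l, δ (X (Sum.inr l)) = β l := fun l => by
      rw [hδ]
      simp
    have hδup : ∀ q, δ (rename Sum.inl q) = φ₀ q := by
      intro q
      have h1 : δ.comp (rename Sum.inl : MvPolynomial {l : Fin (m + c + 1) // l ≠ i} (𝓞 E) →ₐ[𝓞 E]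
          MvPolynomial ({l : Fin (m + c + 1) // l ≠ i} ⊕ Option (Fin r)) (𝓞 E)).toRingHom = φ₀ := by
        refine MvPolynomial.ringHom_ext (fun z => ?_) fun l => ?_
        · have h2 : δ (rename Sum.inl (C z)) = φ₀ (C z) := by rw [rename_C, hδC]
          exact h2
        · have h2 : δ (rename Sum.inl (X l)) = φ₀ (X l) := by
            rw [rename_X, hδ]
            simp
          exact h2
      exact congrArg (fun h : _ →+* D => h q) h1
    -- the equations
    have heqs : ∀ l, δ (rename Sum.inl (f k) * X (Sum.inr l) - rename Sum.inl (f l)) = 0 := by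
      intro l
      rw [map_sub, map_mul, hδup, hδup, hδz, hw, hw, hβ, sub_eq_zero]
      linear_combination b * w l * hwi
    have hδE : ∀ x ∈ blowEqs (dId J i) (blowGens Θ G i) k, δ x = 0 := by
      intro x hx
      have h1 : blowEqs (dId J i) (blowGens Θ G i) k ≤ RingHom.ker δ := by
        rw [blowEqs, sup_le_iff, Ideal.map_le_iff_le_comap, Ideal.span_le]
        refine ⟨fun q hq => ?_, ?_⟩
        · have h2 : δ (rename Sum.inl q) = 0 := by rw [hδup]; exact hker0 q hq
          exact h2
        · rintro _ ⟨l, rfl⟩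
          rw [← hf]
          exact heqs l
      exact h1 hx
    have hδG : ∀ x ∈ genClosure (blowEqs (dId J i) (blowGens Θ G i) k), δ x = 0 := by
      intro x hx
      obtain ⟨z, hz, h1⟩ := mem_genClosure.1 hx
      have h2 := hδE _ h1
      rw [map_mul, hδC] at h2
      exact (mul_eq_zero.1 h2).resolve_left (hC0' z hz)
    have hQp : (Ideal.comap δ (maximalIdeal D)).IsPrime := Ideal.IsPrime.comap δ
    have hT := hB i k (Ideal.comap δ (maximalIdeal D)) hQp
      (fun x hx => by rw [Ideal.mem_comap, hδG x hx]; exact Ideal.zero_mem _)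
      (by
        rw [Ideal.map_le_iff_le_comap]
        intro z hz
        have h1 := hcase (Ideal.mem_map_of_mem C hz)
        rw [Ideal.mem_comap] at h1
        rw [Ideal.mem_comap, Ideal.mem_comap, hδC]
        exact h1)
    -- the generic fibre
    have hkerp : (RingHom.ker φ₀).IsPrime := RingHom.ker_isPrime _
    obtain ⟨U, F, hpres, hUT, hUh, -⟩ := hgen i (RingHom.ker φ₀) hkerp
      (fun f hf => RingHom.mem_ker.2 (hker0 f hf))
      (fun z hz => by
        by_contra h0
        exact hC0' z h0 (RingHom.mem_ker.1 hz))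
    have hUs : φ₀ U.s ≠ 0 := fun h => hUh (Ideal.mul_mem_right _ _ (RingHom.mem_ker.2 h))
    have hcard : Fintype.card {l : Fin (m + c + 1) // l ≠ i} = m + c := by
      rw [Fintype.card_subtype_compl, Fintype.card_fin, Fintype.card_subtype_eq]
      rfl
    have hcard2 : Fintype.card (Option {l : {l : Fin (m + c + 1) // l ≠ i} // l ∉ U.T} ⊕
        Option (Fin r)) = c + (r + 1) := by
      have h1 : Fintype.card {l : {l : Fin (m + c + 1) // l ≠ i} // l ∉ U.T} =
          Fintype.card {l : Fin (m + c + 1) // l ≠ i} - U.T.card := by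
        rw [Fintype.card_subtype_compl, Fintype.card_coe]
      have h2 : U.T.card ≤ Fintype.card {l : Fin (m + c + 1) // l ≠ i} := Finset.card_le_univ _
      rw [Fintype.card_sum, Fintype.card_option, Fintype.card_option, Fintype.card_fin, h1]
      omega
    obtain ⟨ε⟩ : Nonempty (Option {l : {l : Fin (m + c + 1) // l ≠ i} // l ∉ U.T} ⊕
        Option (Fin r) ≃ Fin (c + (r + 1))) := ⟨Fintype.equivFinOfCardEq hcard2⟩
    obtain ⟨e₀, he₀⟩ : ∃ e₀ : Option {l : {l : Fin (m + c + 1) // l ≠ i} // l ∉ U.T} ⊕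
        Option (Fin r) → MvPolynomial ({l : Fin (m + c + 1) // l ≠ i} ⊕ Option (Fin r)) (𝓞 E),
        e₀ = Sum.elim (fun o => rename Sum.inl (o.elim F U.g))
          fun l => rename Sum.inl (f k) * X (Sum.inr l) - rename Sum.inl (f l) := ⟨_, rfl⟩
    have hrange : ∀ o, e₀ o ∈ Ideal.span (Set.range fun j => e₀ (ε.symm j)) := fun o =>
      Ideal.subset_span ⟨ε o, by simp only [Equiv.symm_apply_apply]⟩
    refine fc2_regular δ (𝔞 := genClosure (blowEqs (dId J i) (blowGens Θ G i) k)) hδG hT ?_
      (fun j => e₀ (ε.symm j)) ?_ ?_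
    · -- every element is a quotient
      have htop : locIn δ = ⊤ := by
        have hφδ : ∀ x, φ x ∈ locIn δ := by
          intro x
          obtain ⟨n, hn, x₀, hx₀⟩ := exists_C_mul_eq P.asIdeal.primeCompl x
          refine ⟨rename Sum.inl x₀, C n, ?_, ?_⟩
          · rw [hδC, ← hφ₀a, MvPolynomial.map_C, hθ]
            exact fc3_isUnit P φ hn
          · rw [hδC, hδup, ← hφ₀a, ← hφ₀a, MvPolynomial.map_C, hθ, hx₀, map_mul, mul_comm]
        have hlD : locIn φ ≤ locIn δ := locIn_le (dom_locIn δ) hφδ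
        refine hmin _ (dom_locIn δ) hlD fun x hx => ?_
        have hβm : ∀ l, β l ∈ locIn δ := fun l => by
          rw [← hδz]
          exact map_mem_locIn δ _
        have hwk : w k ∈ locIn δ := by
          have h1 : (∑ o, (a o : D) * β o) * w k = 1 := by
            rw [Finset.sum_mul, ← hsum]
            refine Finset.sum_congr rfl fun o _ => ?_
            rw [hβ]
            linear_combination (a o : D) * w o * hwi
          exact dom_locIn δ _ ((locIn δ).sum_mem fun o _ =>
            (locIn δ).mul_mem (hlD (a o).2) (hβm o)) _ h1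
        have hwl : ∀ l, w l ∈ locIn δ := fun l => by
          have h1 : w l = β l * w k := by
            rw [hβ]
            linear_combination -(w l) * hwi
          rw [h1]
          exact (locIn δ).mul_mem (hβm l) hwk
        rcases hx with hx | ⟨j, hx⟩
        · have h1 : x = w none := mul_left_cancel₀ hb0 (by rw [hx, ← hφn, hw])
          rw [h1]
          exact hwl _
        · have h1 : x = w (some j) := mul_left_cancel₀ hb0 (by rw [hx, ← hφs, hw])
          rw [h1]
          exact hwl _
      intro z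
      have hz : z ∈ locIn δ := by rw [htop]; trivial
      exact mem_locIn.1 hz
    · intro j
      change δ (e₀ (ε.symm j)) = 0
      rw [he₀]
      rcases ε.symm j with (_ | κ) | l
      · change δ (rename Sum.inl F) = 0
        rw [hδup]
        exact hker0 _ hpres.memF
      · change δ (rename Sum.inl (U.g κ)) = 0
        rw [hδup]
        exact hker0 _ (hpres.mem κ)
      · exact heqs l
    · -- the kernel
      intro x hx
      obtain ⟨n, q, hq⟩ := blow_clear f k x
      have hKle : Ideal.span (Set.range fun l =>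
          (rename Sum.inl (f k) * X (Sum.inr l) - rename Sum.inl (f l) :
            MvPolynomial ({l : Fin (m + c + 1) // l ≠ i} ⊕ Option (Fin r)) (𝓞 E))) ≤
          Ideal.span (Set.range fun j => e₀ (ε.symm j)) := by
        rw [Ideal.span_le]
        rintro _ ⟨l, rfl⟩
        have h1 := hrange (Sum.inr l)
        rw [he₀] at h1
        rw [he₀]
        exact h1
      have hqδ : φ₀ q = 0 := by
        have h1 : δ (rename Sum.inl (f k) ^ n * x - rename Sum.inl q) = 0 := by
          have h2 : Ideal.span (Set.range fun l =>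
              (rename Sum.inl (f k) * X (Sum.inr l) - rename Sum.inl (f l) :
                MvPolynomial ({l : Fin (m + c + 1) // l ≠ i} ⊕ Option (Fin r)) (𝓞 E))) ≤
              RingHom.ker δ := by
            rw [Ideal.span_le]
            rintro _ ⟨l, rfl⟩
            exact heqs l
          exact h2 hq
        rw [map_sub, map_mul, hx, mul_zero, zero_sub, neg_eq_zero, hδup] at h1
        exact h1
      obtain ⟨τ₁, hτ₁, hτJ⟩ := fc3_ker hLD hp P hi φ hφ (w := q) (by rw [← hφ₀]; exact hqδ)
      rw [← hφ₀] at hτ₁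
      refine ⟨rename Sum.inl (U.s * τ₁) * rename Sum.inl (f k) ^ n, ?_, ?_⟩
      · rw [map_mul, map_pow, hδup, hδup, map_mul]
        have hfk : φ₀ (f k) ≠ 0 := by
          rw [hw]
          exact mul_ne_zero hb0 hk.ne_zero
        exact mul_ne_zero (mul_ne_zero hUs hτ₁) (pow_ne_zero _ hfk)
      · have h1 : rename Sum.inl (U.s * τ₁) * rename Sum.inl (f k) ^ n * x =
            rename Sum.inl (U.s * τ₁) *
              (rename Sum.inl (f k) ^ n * x - rename Sum.inl q) +
            rename Sum.inl (U.s * (τ₁ * q)) := by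
          simp only [map_mul]
          ring
        rw [h1]
        refine Ideal.add_mem _ (Ideal.mul_mem_left _ _ (hKle hq)) ?_
        have h2 := hpres.le _ hτJ
        have h3 : Ideal.span (insert F (Set.range U.g)) ≤
            (Ideal.span (Set.range fun j => e₀ (ε.symm j))).comap
              (rename Sum.inl : MvPolynomial {l : Fin (m + c + 1) // l ≠ i} (𝓞 E) →ₐ[𝓞 E]
                MvPolynomial ({l : Fin (m + c + 1) // l ≠ i} ⊕ Option (Fin r)) (𝓞 E)) := by
          rw [Ideal.span_le]
          rintro y (rfl | ⟨κ, rfl⟩)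
          · have h4 := hrange (Sum.inl none)
            rw [he₀] at h4
            rw [he₀]
            exact h4
          · have h4 := hrange (Sum.inl (some κ))
            rw [he₀] at h4
            rw [he₀]
            exact h4
        exact h3 h2
  · -- nothing is blown up
    obtain ⟨ϖ, hϖ⟩ := exists_unif (K := E) P
    rw [← hθ] at hϖ
    have hϖu : IsUnit (φ (C (θ ϖ))) := by
      by_contra hcon
      apply hcase
      have hmax : maximalIdeal (locRing E P) = Ideal.span {θ ϖ} := hϖ.maximalIdeal_eq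
      rw [Ideal.map_le_iff_le_comap]
      intro z hz
      have h1 : θ z ∈ maximalIdeal (locRing E P) := by
        rw [hθ]
        exact (IsLocalization.AtPrime.to_map_mem_maximal_iff (locRing E P) P.asIdeal z).mpr hz
      rw [hmax, Ideal.mem_span_singleton] at h1
      obtain ⟨t, ht⟩ := h1
      rw [Ideal.mem_comap, Ideal.mem_comap, ← hφ₀a, MvPolynomial.map_C, ht, C_mul, map_mul]
      exact Ideal.mul_mem_right _ _ ((IsLocalRing.mem_maximalIdeal _).2 hcon)
    have hCu : ∀ x : locRing E P, x ≠ 0 → IsUnit (φ (C x)) := by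
      intro x hx
      obtain ⟨k, u, hu⟩ := IsDiscreteValuationRing.eq_unit_mul_pow_irreducible hx hϖ
      rw [hu, C_mul, map_mul, C_pow, map_pow]
      exact ((u.isUnit.map C).map φ).mul (hϖu.pow k)
    have h𝔮p : (Ideal.comap φ₀ (maximalIdeal D)).IsPrime := Ideal.IsPrime.comap φ₀
    have h0 : ∀ z : 𝓞 E, C z ∈ Ideal.comap φ₀ (maximalIdeal D) → z = 0 := by
      intro z hz
      by_contra hz0
      rw [Ideal.mem_comap, ← hφ₀a, MvPolynomial.map_C, IsLocalRing.mem_maximalIdeal] at hz
      exact hz (hCu _ fun h1 => hz0 (hθinj z h1))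
    have hdomL : Dom (locIn φ) := dom_locIn φ
    have hbu : IsUnit b := isUnit_of_dvd_unit hb1 (hCu _ fun h1 => hΘ0 (hθinj Θ h1))
    have hbL : b ∈ locIn φ := by
      clear hb0 hb1 hb2 hmin hbu
      induction hb3 using Submodule.span_induction with
      | mem x hx =>
        rcases hx with rfl | ⟨g, rfl⟩
        · exact map_mem_locIn φ _
        · exact map_mem_locIn φ _
      | zero => exact (locIn φ).zero_mem
      | add x y _ _ hx hy => exact (locIn φ).add_mem hx hy
      | smul c x _ hx => exact (locIn φ).mul_mem c.2 hx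
    obtain ⟨y, hy⟩ := hbu.exists_right_inv
    have hyL : y ∈ locIn φ := hdomL _ hbL _ hy
    refine regular_of_top_fam hgen hLD hp P hi φ hφ (Or.inl ?_) ?_
    · rw [← hφ₀]
      exact hgen i _ h𝔮p (fun f hf => by rw [Ideal.mem_comap, hker0 f hf]; exact Ideal.zero_mem _) h0
    · refine hmin (locIn φ) hdomL le_rfl fun w hw => ?_
      have hxL : b * w ∈ locIn φ := by
        rcases hw with hw | ⟨g, hw⟩
        · rw [hw]; exact map_mem_locIn φ _
        · rw [hw]; exact map_mem_locIn φ _
      have h6 : w = y * (b * w) := by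
        rw [← mul_assoc, mul_comm y, hy, one_mul]
      rw [h6]
      exact (locIn φ).mul_mem hyL hxL

end Point

end Pool.Agent.Lib.MP_6a3dac_ag.Blow
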