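import Pool.Agent.Lib.MP_6a3dac_ag.Fam.GLDefs

/-!
# Regular blow-ups over a prime
-/

set_option autoImplicit false

namespace Pool.Agent.Lib.MP_6a3dac_ag.Blow

open MvPolynomial CategoryTheory Limits AlgebraicGeometry NumberField IsDedekindDomain
open Pool.Agent.Lib.MP_6a3dac_ag.DNF Pool.Agent.Lib.MP_6a3dac_ag.Bert
open Pool.Agent.Lib.MP_6a3dac_ag.Fam

/-- The equations `f k * z l = f l` of the chart `f k ≠ 0` of the blow-up at the ideal generated
by the `f l`, together with the equations in `J`. -/
noncomputable def blowEqs {R σ τ : Type} [CommRing R] (J : Ideal (MvPolynomial σ R))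
    (f : τ → MvPolynomial σ R) (k : τ) : Ideal (MvPolynomial (σ ⊕ τ) R) :=
  J.map (rename Sum.inl : MvPolynomial σ R →ₐ[R] _) ⊔
    Ideal.span (Set.range fun l => rename Sum.inl (f k) * X (Sum.inr l) - rename Sum.inl (f l))

/-- The ideal of the closure of the generic fibre of a subscheme of the affine space over the
integers of `E`: the polynomials with integral coefficients in the ideal which is generated
over `E`. -/
noncomputable def genClosure {E : Type} [Field E] [NumberField E] {σ : Type}
    (K : Ideal (MvPolynomial σ (𝓞 E))) : Ideal (MvPolynomial σ (𝓞 E)) :=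
  (K.map (MvPolynomial.map (algebraMap (𝓞 E) E))).comap (MvPolynomial.map (algebraMap (𝓞 E) E))

/-- The generators of the blown up ideal in the chart `x i = 1`: the constant `Θ` and the
dehomogenizations of the forms `G j`. -/
noncomputable def blowGens {E : Type} [Field E] [NumberField E] {n r : ℕ} (Θ : 𝓞 E)
    (G : Fin r → MvPolynomial (Fin (n + 1)) (𝓞 E)) (i : Fin (n + 1)) :
    Option (Fin r) → MvPolynomial {l : Fin (n + 1) // l ≠ i} (𝓞 E) :=
  fun o => o.elim (C Θ) fun j => dehom i (G j)

/-- The blow-up of the closure of the generic fibre of `Proj 𝓞_E[x] / J` (of dimension `m`) at the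
ideal generated by the `Θ * x j ^ δ` and the forms `G j` of degree `δ` is regular at all points
over `P`: in each chart, an open subset of a closed subscheme of the affine space, the ideal of
this subscheme contains `c + (r + 1)` elements which are linearly independent in the cotangent
space. -/
def BlowOver {E : Type} [Field E] [NumberField E] {m c : ℕ} (P : HeightOneSpectrum (𝓞 E))
    (J : HomIdeal (𝓞 E) (m + c + 1)) (Θ : 𝓞 E) {r : ℕ}
    (G : Fin r → MvPolynomial (Fin (m + c + 1)) (𝓞 E)) : Prop :=
  ∀ (i : Fin (m + c + 1)) (k : Option (Fin r))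
    (y : Ideal (MvPolynomial ({l : Fin (m + c + 1) // l ≠ i} ⊕ Option (Fin r)) (𝓞 E))),
    y.IsPrime → genClosure (blowEqs (dId J i) (blowGens Θ G i) k) ≤ y → P.asIdeal.map C ≤ y →
      TanPt (c + (r + 1)) (genClosure (blowEqs (dId J i) (blowGens Θ G i) k)) y

/-- Some blow-up at an ideal which contains a nonzero constant is regular over `P`. -/
def HasBlow {E : Type} [Field E] [NumberField E] {m c : ℕ} (P : HeightOneSpectrum (𝓞 E))
    (J : HomIdeal (𝓞 E) (m + c + 1)) : Prop :=
  ∃ (δ r : ℕ) (Θ : 𝓞 E) (G : Fin r → MvPolynomial (Fin (m + c + 1)) (𝓞 E)), 1 ≤ δ ∧ Θ ≠ 0 ∧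
    (∀ j, (G j).IsHomogeneous δ) ∧ BlowOver P J Θ G

end Pool.Agent.Lib.MP_6a3dac_ag.Blow
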