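import Pool.Agent.Lib.MP_6a3dac_ag.Blow.Defs
import Pool.Agent.Lib.MP_6a3dac_ag.Mg.G020
import Pool.Agent.Lib.MP_6a3dac_ag.Mg.G016

/-!
# The regularity of blow-ups is an open condition in families
-/

set_option autoImplicit false

namespace Pool.Agent.Lib.MP_6a3dac_ag.Blow

open MvPolynomial CategoryTheory Limits AlgebraicGeometry NumberField IsDedekindDomain
open Pool.Agent.Lib.MP_6a3dac_ag.DNF Pool.Agent.Lib.MP_6a3dac_ag.Bert
open Pool.Agent.Lib.MP_6a3dac_ag.Fam

section Alg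

variable {R S σ τ : Type} [CommRing R] [CommRing S]

/-- The equations of the blow-up commute with the base change. -/
theorem blowEqs_map (θ : R →+* S) (J : Ideal (MvPolynomial σ R)) (f : τ → MvPolynomial σ R)
    (k : τ) : (blowEqs J f k).map (MvPolynomial.map θ) =
      blowEqs (J.map (MvPolynomial.map θ)) (fun l => MvPolynomial.map θ (f l)) k := by
  have h1 : ∀ q : MvPolynomial σ R, MvPolynomial.map θ
      (rename Sum.inl q : MvPolynomial (σ ⊕ τ) R) = rename Sum.inl (MvPolynomial.map θ q) :=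
    fun q => map_rename _ _ _
  have h2 : (MvPolynomial.map θ : MvPolynomial (σ ⊕ τ) R →+* MvPolynomial (σ ⊕ τ) S).comp
      (rename Sum.inl : MvPolynomial σ R →ₐ[R] MvPolynomial (σ ⊕ τ) R).toRingHom =
      (rename Sum.inl : MvPolynomial σ S →ₐ[S] MvPolynomial (σ ⊕ τ) S).toRingHom.comp
        (MvPolynomial.map θ) := RingHom.ext h1
  have h3 : (J.map (rename Sum.inl : MvPolynomial σ R →ₐ[R] MvPolynomial (σ ⊕ τ) R)).map
      (MvPolynomial.map θ) = (J.map (MvPolynomial.map θ)).map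
        (rename Sum.inl : MvPolynomial σ S →ₐ[S] MvPolynomial (σ ⊕ τ) S) := by
    change (J.map (rename Sum.inl : MvPolynomial σ R →ₐ[R] _).toRingHom).map _ =
      (J.map _).map (rename Sum.inl : MvPolynomial σ S →ₐ[S] _).toRingHom
    rw [Ideal.map_map, h2, Ideal.map_map]
  rw [blowEqs, blowEqs, Ideal.map_sup, h3, Ideal.map_span, ← Set.range_comp]
  congr 3
  funext l
  simp only [Function.comp_apply, map_sub, map_mul, h1, map_X]

end Alg

variable {E : Type} [Field E] [NumberField E]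

/-- The polynomials in the ideal of the closure of the generic fibre. -/
theorem mem_genClosure {σ : Type} {K : Ideal (MvPolynomial σ (𝓞 E))}
    {b : MvPolynomial σ (𝓞 E)} : b ∈ genClosure K ↔ ∃ z : 𝓞 E, z ≠ 0 ∧ C z * b ∈ K := by
  constructor
  · intro h
    obtain ⟨z, hz, h1⟩ := exists_C_mul_mem (O := E) (nonZeroDivisors (𝓞 E)) K h
    exact ⟨z, nonZeroDivisors.ne_zero hz, h1⟩
  · rintro ⟨z, hz, h⟩
    have h1 := Ideal.mem_map_of_mem (MvPolynomial.map (algebraMap (𝓞 E) E)) h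
    rw [map_mul, map_C] at h1
    have h2 : algebraMap (𝓞 E) E z ≠ 0 := by
      rw [Ne, FaithfulSMul.algebraMap_eq_zero_iff]
      exact hz
    exact (Ideal.unit_mul_mem_iff_mem _ (h2.isUnit.map C)).1 h1

/-- One constant is enough. -/
theorem exists_clear {σ : Type} [Finite σ] (K : Ideal (MvPolynomial σ (𝓞 E))) :
    ∃ z : 𝓞 E, z ≠ 0 ∧ ∀ b ∈ genClosure K, C z * b ∈ K := by
  classical
  obtain ⟨T, hT⟩ : (genClosure K).FG := IsNoetherian.noetherian _
  have h1 : ∀ t : T, ∃ z : 𝓞 E, z ≠ 0 ∧ C z * (t : MvPolynomial σ (𝓞 E)) ∈ K := fun t =>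
    mem_genClosure.1 (hT ▸ Ideal.subset_span t.2)
  choose z hz0 hz using h1
  refine ⟨∏ t, z t, Finset.prod_ne_zero_iff.2 fun t _ => hz0 t, fun b hb => ?_⟩
  rw [← hT] at hb
  induction hb using Submodule.span_induction with
  | mem x hx =>
    obtain ⟨y, hy⟩ := Finset.dvd_prod_of_mem z (Finset.mem_univ (⟨x, hx⟩ : T))
    rw [hy, mul_comm (z ⟨x, hx⟩), C_mul, mul_assoc]
    exact K.mul_mem_left _ (hz ⟨x, hx⟩)
  | zero => rw [mul_zero]; exact K.zero_mem
  | add x y _ _ hx hy => rw [mul_add]; exact K.add_mem hx hy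
  | smul a x _ hx =>
    rw [smul_eq_mul, mul_left_comm]
    exact K.mul_mem_left _ hx

/-- The valuation of a constant. -/
theorem exists_val (P : HeightOneSpectrum (𝓞 E)) {z : 𝓞 E} (hz : z ≠ 0) :
    ∃ (n : ℕ) (u : 𝓞 E), u ∉ P.asIdeal ∧ ∀ k, Ideal.span {u} * P.asIdeal ^ (n + k) ≤
      Ideal.span {z} * P.asIdeal ^ k := by
  have hP0 : P.asIdeal ≠ ⊥ := P.ne_bot
  have hPp : Prime P.asIdeal := P.prime
  have hz' : Ideal.span {z} ≠ (0 : Ideal (𝓞 E)) := by
    rw [Ne, Ideal.zero_eq_bot, Ideal.span_singleton_eq_bot]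
    exact hz
  obtain ⟨n, I, hI, hnI⟩ : ∃ (n : ℕ) (I : Ideal (𝓞 E)), ¬ P.asIdeal ∣ I ∧
      Ideal.span {z} = P.asIdeal ^ n * I := by
    obtain ⟨n, I, h1, h2⟩ := WfDvdMonoid.max_power_factor hz' hPp.irreducible
    exact ⟨n, I, h1, h2⟩
  obtain ⟨u, hu, huP⟩ : ∃ u ∈ I, u ∉ P.asIdeal := by
    by_contra hcon
    push Not at hcon
    exact hI (Ideal.dvd_iff_le.2 hcon)
  refine ⟨n, u, huP, fun k => ?_⟩
  rw [hnI, pow_add]
  have h1 : Ideal.span {u} ≤ I := (Ideal.span_singleton_le_iff_mem _).2 hu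
  calc Ideal.span {u} * (P.asIdeal ^ n * P.asIdeal ^ k) ≤
      I * (P.asIdeal ^ n * P.asIdeal ^ k) := Ideal.mul_mono_left h1
    _ = P.asIdeal ^ n * I * P.asIdeal ^ k := by ring

section Incl

variable {ι σ : Type} [Finite σ]

/-- **The closure of the generic fibre of a member changes little in one direction.** -/
theorem genClosure_incl (P : HeightOneSpectrum (𝓞 E))
    (K : Ideal (MvPolynomial σ (MvPolynomial ι (𝓞 E)))) (a : ι → 𝓞 E) (k : ℕ) :
    ∃ n : ℕ, ∀ a' : ι → 𝓞 E, (∀ i, a' i - a i ∈ P.asIdeal ^ n) →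
      ∀ b ∈ genClosure (K.map (MvPolynomial.map (eval a))), ∃ u : 𝓞 E, u ∉ P.asIdeal ∧
        ∃ q ∈ (P.asIdeal ^ k).map (C : 𝓞 E →+* MvPolynomial σ (𝓞 E)),
          C u * b - q ∈ genClosure (K.map (MvPolynomial.map (eval a'))) := by
  have hsurj : ∀ a : ι → 𝓞 E, Function.Surjective
      (MvPolynomial.map (eval a) : MvPolynomial σ (MvPolynomial ι (𝓞 E)) →+* _) := fun a =>
    map_surjective _ fun z => ⟨C z, eval_C z⟩
  obtain ⟨z, hz0, hz⟩ := exists_clear (K.map (MvPolynomial.map (eval a)))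
  obtain ⟨n, u, hu, hn⟩ := exists_val P hz0
  refine ⟨n + k, fun a' ha' b hb => ⟨u, hu, ?_⟩⟩
  obtain ⟨x, hxK, hx⟩ := (Ideal.mem_map_iff_of_surjective _ (hsurj a)).1 (hz b hb)
  -- the difference of the values
  have hdiff : MvPolynomial.map (eval a) x - MvPolynomial.map (eval a') x ∈
      (P.asIdeal ^ (n + k)).map (C : 𝓞 E →+* MvPolynomial σ (𝓞 E)) := by
    rw [mem_map_C_iff]
    intro mo
    rw [coeff_sub, coeff_map, coeff_map]
    have h1 : ∀ p : MvPolynomial ι (𝓞 E), eval a p - eval a' p ∈ P.asIdeal ^ (n + k) := by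
      intro p
      rw [← Ideal.Quotient.eq_zero_iff_mem, map_sub, sub_eq_zero]
      have h2 : ∀ a : ι → 𝓞 E, Ideal.Quotient.mk (P.asIdeal ^ (n + k)) (eval a p) =
          eval₂ (Ideal.Quotient.mk (P.asIdeal ^ (n + k)))
            (fun i => Ideal.Quotient.mk (P.asIdeal ^ (n + k)) (a i)) p := by
        intro a
        rw [← coe_eval₂Hom, ← RingHom.comp_apply]
        congr 1
        refine MvPolynomial.ringHom_ext (fun z => ?_) fun i => ?_
        · simp
        · simp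
      rw [h2, h2]
      congr 1
      funext i
      rw [eq_comm, ← sub_eq_zero, ← map_sub, Ideal.Quotient.eq_zero_iff_mem]
      exact ha' i
    exact h1 _
  have h2 : C u * (MvPolynomial.map (eval a) x - MvPolynomial.map (eval a') x) ∈
      Ideal.span {C z} * (P.asIdeal ^ k).map (C : 𝓞 E →+* MvPolynomial σ (𝓞 E)) := by
    have h3 : (Ideal.span {u} * P.asIdeal ^ (n + k)).map (C : 𝓞 E →+* MvPolynomial σ (𝓞 E)) ≤
        (Ideal.span {z} * P.asIdeal ^ k).map C := Ideal.map_mono (hn k)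
    rw [Ideal.map_mul, Ideal.map_mul, Ideal.map_span, Ideal.map_span, Set.image_singleton,
      Set.image_singleton] at h3
    exact h3 (Ideal.mul_mem_mul (Ideal.mem_span_singleton_self _) hdiff)
  obtain ⟨q, hq, hqz⟩ := Ideal.mem_span_singleton_mul.1 h2
  refine ⟨q, hq, mem_genClosure.2 ⟨z, hz0, ?_⟩⟩
  have h3 : C z * (C u * b - q) = C u * MvPolynomial.map (eval a') x := by
    rw [mul_sub, hqz, mul_left_comm, ← hx]
    ring
  rw [h3]
  exact Ideal.mul_mem_left _ _ (Ideal.mem_map_of_mem _ hxK)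

end Incl

/-- Independent elements remain independent. -/
theorem tanPt_of_incl {σ : Type} {P : HeightOneSpectrum (𝓞 E)} {c : ℕ}
    {K K' y : Ideal (MvPolynomial σ (𝓞 E))} (hy : y.IsPrime) (hP : P.asIdeal.map C ≤ y)
    (hincl : ∀ b ∈ K, ∃ u : 𝓞 E, u ∉ P.asIdeal ∧
      ∃ q ∈ (P.asIdeal ^ 2).map (C : 𝓞 E →+* MvPolynomial σ (𝓞 E)), C u * b - q ∈ K')
    (hK : K ≤ y → TanPt c K y) (hK' : K' ≤ y) : TanPt c K' y := by
  have hP2 : (P.asIdeal ^ 2).map (C : 𝓞 E →+* MvPolynomial σ (𝓞 E)) ≤ y ^ 2 := by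
    rw [Ideal.map_pow]
    exact Ideal.pow_right_mono hP 2
  have hu : ∀ u : 𝓞 E, u ∉ P.asIdeal → C u ∉ y := by
    intro u hu hc
    have hmax : P.asIdeal.IsMaximal := P.isMaximal
    obtain ⟨z, i, hi, hz⟩ := hmax.exists_inv hu
    apply hy.ne_top
    rw [Ideal.eq_top_iff_one]
    have h1 : C (z * u + i) ∈ y := by
      rw [map_add, map_mul]
      exact y.add_mem (y.mul_mem_left _ hc) (hP (Ideal.mem_map_of_mem C hi))
    rwa [hz, map_one] at h1
  have hKy : K ≤ y := by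
    intro b hb
    obtain ⟨u, hu1, q, hq, h1⟩ := hincl b hb
    have h2 : C u * b ∈ y := by
      have h3 := y.add_mem (hK' h1) (Ideal.pow_le_self two_ne_zero (hP2 hq))
      rwa [sub_add_cancel] at h3
    exact (hy.mem_or_mem h2).resolve_left (hu u hu1)
  obtain ⟨f, hf, hind⟩ := hK hKy
  choose u hu1 q hq hfK using fun j => hincl (f j) (hf j)
  refine ⟨fun j => C (u j) * f j - q j, hfK, fun b hb => ?_⟩
  have h1 : ∑ j, (b j * C (u j)) * f j ∈ y ^ 2 := by
    have h2 : ∑ j, (b j * C (u j)) * f j = ∑ j, b j * (C (u j) * f j - q j) +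
        ∑ j, b j * q j := by
      rw [← Finset.sum_add_distrib]
      exact Finset.sum_congr rfl fun j _ => by ring
    rw [h2]
    exact Ideal.add_mem _ hb (Ideal.sum_mem _ fun j _ => Ideal.mul_mem_left _ _ (hP2 (hq j)))
  intro j
  exact (hy.mem_or_mem (hind _ h1 j)).resolve_right (hu _ (hu1 j))

section Fam

variable {ι : Type} {m c : ℕ}

/-- **The regularity of a blow-up over `P` is an open condition.** -/
theorem BlowOver.open_fib {P : HeightOneSpectrum (𝓞 E)}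
    {J : HomIdeal (MvPolynomial ι (𝓞 E)) (m + c + 1)} {a : ι → 𝓞 E} {Θ : 𝓞 E} {r : ℕ}
    {G : Fin r → MvPolynomial (Fin (m + c + 1)) (𝓞 E)} (h : BlowOver P (fib J a) Θ G) :
    ∃ n : ℕ, ∀ a' : ι → 𝓞 E, (∀ i, a' i - a i ∈ P.asIdeal ^ n) → BlowOver P (fib J a') Θ G := by
  classical
  -- the equations over the space of the parameters
  let K : ∀ (i : Fin (m + c + 1)) (_ : Option (Fin r)),
      Ideal (MvPolynomial ({l : Fin (m + c + 1) // l ≠ i} ⊕ Option (Fin r))
        (MvPolynomial ι (𝓞 E))) := fun i k =>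
    blowEqs (dId J i) (fun l => MvPolynomial.map C (blowGens Θ G i l)) k
  have hK : ∀ (a : ι → 𝓞 E) i k, (K i k).map (MvPolynomial.map (eval a)) =
      blowEqs (dId (fib J a) i) (blowGens Θ G i) k := by
    intro a i k
    change (blowEqs _ _ _).map _ = _
    rw [blowEqs_map, fib, dId_bc]
    congr 1
    funext l
    rw [MvPolynomial.map_map]
    have h1 : (eval a).comp (C : 𝓞 E →+* MvPolynomial ι (𝓞 E)) = RingHom.id _ :=
      RingHom.ext fun z => eval_C z
    rw [h1, MvPolynomial.map_id]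
  choose n hn using fun (i : Fin (m + c + 1)) (k : Option (Fin r)) =>
    genClosure_incl P (K i k) a 2
  refine ⟨∑ i, ∑ k, n i k, fun a' ha' i k y hy hle hPy => ?_⟩
  have hnik : n i k ≤ ∑ i, ∑ k, n i k :=
    (Finset.single_le_sum (f := fun k => n i k) (fun _ _ => Nat.zero_le _)
      (Finset.mem_univ k)).trans
      (Finset.single_le_sum (f := fun i => ∑ k, n i k) (fun _ _ => Nat.zero_le _)
        (Finset.mem_univ i))
  have h1 := hn i k a' fun j => Ideal.pow_le_pow_right hnik (ha' j)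
  rw [hK, hK] at h1
  exact tanPt_of_incl hy hPy h1 (fun h2 => h i k y hy h2 hPy) hle

/-- The existence of a regular blow-up over `P` is an open condition. -/
theorem HasBlow.open_fib {P : HeightOneSpectrum (𝓞 E)}
    {J : HomIdeal (MvPolynomial ι (𝓞 E)) (m + c + 1)} {a : ι → 𝓞 E} (h : HasBlow P (fib J a)) :
    ∃ n : ℕ, ∀ a' : ι → 𝓞 E, (∀ i, a' i - a i ∈ P.asIdeal ^ n) → HasBlow P (fib J a') := by
  obtain ⟨δ, r, Θ, G, h1, h2, h3, h4⟩ := h
  obtain ⟨n, hn⟩ := BlowOver.open_fib h4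
  exact ⟨n, fun a' ha' => ⟨δ, r, Θ, G, h1, h2, h3, hn a' ha'⟩⟩

end Fam

end Pool.Agent.Lib.MP_6a3dac_ag.Blow
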